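import Pool.Agent.H9.CR3

set_option autoImplicit false

namespace Pool.Agent.Results.MP_3e1815_co.Counter

open Pool.Agent.H9.CR

theorem result : ∃ (a b : ℕ) (F : SimpleGraph (Fin a)) (G : SimpleGraph (Fin b)) (n : ℕ),
    2 ≤ a ∧ 2 ≤ b ∧ 2 ≤ n ∧ freeChi F G ≤ 2 ∧ freeChi G F ≤ 2 ∧ ¬ RelatedAt F G n :=
  ⟨5, 28, crF, crG, 3, by norm_num, by norm_num, by norm_num, chi_FG, chi_GF.le, not_rel3⟩

end Pool.Agent.Results.MP_3e1815_co.Counter
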